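import Mathlib
import Pool.Agent.U73.LS.Stm
import Pool.Agent.U73.LR.Tl

set_option autoImplicit false

/-!
Project LS (helper73), package BIG: the square of a prime `≥ z` divides `c³ - d²` (helper789).
-/

namespace Pool.Agent.U789.LS

open Finset Filter Topology
open Pool.Agent.U73.LR Pool.Agent.U73.LS Pool.Agent.N906.SZ

/-- the solutions `b` of `b² ≡ a³` modulo `p²` -/
theorem fibre_card {X : ℝ} (hX : 1 ≤ X) {p : ℕ} (hp : p.Prime) (h5 : 5 ≤ p) (a : ℤ)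
    (ha : ¬ (p : ℤ) ∣ a) :
    (((Icc (-⌊X ^ 3⌋) ⌊X ^ 3⌋).filter (fun b : ℤ => (p : ℤ) ^ 2 ∣ a ^ 3 - b ^ 2)).card : ℝ) ≤
      4 * X ^ 3 * (1 / (p : ℝ) ^ 2) + 6 := by
  classical
  have hX0 : 0 < X := by linarith
  have hp0 : (0 : ℝ) < p := by exact_mod_cast hp.pos
  have hpp : Prime (p : ℤ) := Nat.prime_iff_prime_int.1 hp
  obtain ⟨B, hB⟩ : ∃ B, B = (Icc (-⌊X ^ 3⌋) ⌊X ^ 3⌋).filter (fun b : ℤ => (p : ℤ) ^ 2 ∣ a ^ 3 - b ^ 2) :=
    ⟨_, rfl⟩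
  rw [← hB]
  rcases B.eq_empty_or_nonempty with h0 | ⟨b₀, hb₀⟩
  · rw [h0, Finset.card_empty]
    push_cast
    positivity
  · rw [hB, Finset.mem_filter] at hb₀
    have hn : 0 ≤ ⌊X ^ 3⌋ := Int.floor_nonneg.2 (by positivity)
    have hsub : B ⊆ (Icc (-⌊X ^ 3⌋) ⌊X ^ 3⌋).filter (fun x => x ≡ b₀ [ZMOD (p ^ 2 : ℕ)]) ∪
        (Icc (-⌊X ^ 3⌋) ⌊X ^ 3⌋).filter (fun x => x ≡ -b₀ [ZMOD (p ^ 2 : ℕ)]) := by
      intro b hb
      rw [hB, Finset.mem_filter] at hb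
      have h1 : (p : ℤ) ^ 2 ∣ (b - b₀) * (b + b₀) := by
        have := dvd_sub hb₀.2 hb.2
        have e : a ^ 3 - b₀ ^ 2 - (a ^ 3 - b ^ 2) = (b - b₀) * (b + b₀) := by ring
        rwa [e] at this
      have hb0 : ¬ (p : ℤ) ∣ b₀ := by
        intro h
        apply ha
        have h2 : (p : ℤ) ∣ a ^ 3 := by
          have h3 : (p : ℤ) ∣ a ^ 3 - b₀ ^ 2 := (dvd_pow_self _ two_ne_zero).trans hb₀.2
          have h4 := dvd_add h3 (h.pow two_ne_zero |>.trans (dvd_refl _) |> fun h => (h : (p : ℤ) ∣ b₀ ^ 2))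
          rwa [sub_add_cancel] at h4
        exact hpp.dvd_of_dvd_pow h2
      have hnot : ¬ ((p : ℤ) ∣ b - b₀ ∧ (p : ℤ) ∣ b + b₀) := by
        rintro ⟨h2, h3⟩
        have h4 := dvd_sub h3 h2
        have e : b + b₀ - (b - b₀) = 2 * b₀ := by ring
        rw [e] at h4
        rcases hpp.dvd_or_dvd h4 with h6 | h6
        · have h7 := Int.le_of_dvd (by norm_num) h6
          have h8 : (5 : ℤ) ≤ p := by exact_mod_cast h5
          omega
        · exact hb0 h6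
      rw [Finset.mem_union, Finset.mem_filter, Finset.mem_filter]
      by_cases h2 : (p : ℤ) ∣ b - b₀
      · left
        refine ⟨hb.1, ?_⟩
        have h3 : ¬ (p : ℤ) ∣ b + b₀ := fun h => hnot ⟨h2, h⟩
        have h4 : IsCoprime ((p : ℤ) ^ 2) (b + b₀) :=
          IsCoprime.pow_left ((Prime.coprime_iff_not_dvd hpp).2 h3)
        have h6 := h4.dvd_of_dvd_mul_right h1
        rw [Int.modEq_comm, Int.modEq_iff_dvd]
        push_cast
        exact h6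
      · right
        refine ⟨hb.1, ?_⟩
        have h4 : IsCoprime ((p : ℤ) ^ 2) (b - b₀) :=
          IsCoprime.pow_left ((Prime.coprime_iff_not_dvd hpp).2 h2)
        have h6 := h4.dvd_of_dvd_mul_left h1
        rw [Int.modEq_comm, Int.modEq_iff_dvd, sub_neg_eq_add]
        push_cast
        exact h6
    have hM : 0 < p ^ 2 := pow_pos hp.pos 2
    have g1 := (abs_le.1 (abs_one (p ^ 2) hM b₀ ⌊X ^ 3⌋ hn)).2
    have g2 := (abs_le.1 (abs_one (p ^ 2) hM (-b₀) ⌊X ^ 3⌋ hn)).2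
    have g3 : (B.card : ℝ) ≤
        ((Icc (-⌊X ^ 3⌋) ⌊X ^ 3⌋).filter (fun x => x ≡ b₀ [ZMOD (p ^ 2 : ℕ)])).card +
        ((Icc (-⌊X ^ 3⌋) ⌊X ^ 3⌋).filter (fun x => x ≡ -b₀ [ZMOD (p ^ 2 : ℕ)])).card := by
      exact_mod_cast (Finset.card_le_card hsub).trans (Finset.card_union_le _ _)
    have g4 : 2 * (⌊X ^ 3⌋ : ℝ) / ((p ^ 2 : ℕ) : ℝ) ≤ 2 * X ^ 3 * (1 / (p : ℝ) ^ 2) := by
      push_cast
      have := Int.floor_le (X ^ 3)
      rw [mul_one_div]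
      gcongr
    linarith

theorem t_BIG : S_BIG := by
  classical
  obtain ⟨C₂, hC₂, h2⟩ := Pool.Agent.N92.SZ.lp Pool.Agent.N56.SZ.conic (1 / 2) (by norm_num)
  refine ⟨42 + C₂ * 6 ^ (17 / 2 : ℝ), by positivity, fun z hz => ?_⟩
  filter_upwards [eventually_ge_atTop (1 : ℝ), eventually_ge_atTop ((z : ℝ) ^ 2)] with X hX hXz
  have hX0 : 0 < X := by linarith
  have hz0 : (0 : ℝ) < z := by exact_mod_cast (by omega : 0 < z)
  have hz1 : (1 : ℝ) ≤ z := by exact_mod_cast (by omega : 1 ≤ z)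
  obtain ⟨F, hF⟩ : ∃ F : Finset (ℤ × ℤ), F = (box X).filter (fun q => q.1 ^ 3 ≠ q.2 ^ 2 ∧
    ∃ p : ℕ, p.Prime ∧ z ≤ p ∧ ¬ (p : ℤ) ∣ q.1 ∧ (p : ℤ) ^ 2 ∣ q.1 ^ 3 - q.2 ^ 2) := ⟨_, rfl⟩
  obtain ⟨G, hG⟩ : ∃ G : ℕ → Finset (ℤ × ℤ), G = fun p : ℕ => (box X).filter
    (fun q => p.Prime ∧ ¬ (p : ℤ) ∣ q.1 ∧ (p : ℤ) ^ 2 ∣ q.1 ^ 3 - q.2 ^ 2) := ⟨_, rfl⟩
  obtain ⟨F₂, hF₂⟩ : ∃ F₂, F₂ = F.filter (fun q => q.1 ≠ 0 ∧ ∃ p : ℕ, X ^ 2 ≤ p ∧
    (p : ℤ) ^ 2 ∣ q.1 ^ 3 - q.2 ^ 2) := ⟨_, rfl⟩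
  have hN : (⌊X ^ 2⌋₊ : ℝ) ≤ X ^ 2 := Nat.floor_le (by positivity)
  have hsub : F ⊆ (Finset.Icc z ⌊X ^ 2⌋₊).biUnion G ∪ F₂ := by
    intro x hx
    have hx' := hx
    rw [hF, Finset.mem_filter] at hx'
    obtain ⟨h3, h4, p, h5, h6, h7, h8⟩ := hx'
    rw [Finset.mem_union, Finset.mem_biUnion]
    by_cases hpX : (p : ℝ) ≤ X ^ 2
    · left
      refine ⟨p, ?_, ?_⟩
      · rw [Finset.mem_Icc]; exact ⟨h6, Nat.le_floor hpX⟩
      · rw [hG]; simp only [Finset.mem_filter]; exact ⟨h3, h5, h7, h8⟩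
    · right
      rw [hF₂, Finset.mem_filter]
      refine ⟨hx, ?_, p, (not_le.1 hpX).le, h8⟩
      intro h0
      apply h7
      rw [h0]
      exact dvd_zero _
  -- small primes
  have hGc : ∀ p ∈ Finset.Icc z ⌊X ^ 2⌋₊, ((G p).card : ℝ) ≤
      3 * X ^ 2 * (4 * X ^ 3 * (1 / (p : ℝ) ^ 2) + 6) := by
    intro p hp
    rw [Finset.mem_Icc] at hp
    by_cases hpp : p.Prime
    · have h5 : 5 ≤ p := hz.trans hp.1
      have e1 : (G p).card ≤ ∑ a ∈ Icc (-⌊X ^ 2⌋) ⌊X ^ 2⌋,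
          ((G p).filter (fun q => q.1 = a)).card := by
        rw [← Finset.card_eq_sum_card_fiberwise (f := fun q : ℤ × ℤ => q.1)]
        intro q hq
        rw [Finset.mem_coe, hG] at hq
        simp only [Finset.mem_filter, Pool.Agent.U73.LR.box, Finset.mem_product] at hq
        exact hq.1.1
      have e2 : ∀ a ∈ Icc (-⌊X ^ 2⌋) ⌊X ^ 2⌋, (((G p).filter (fun q => q.1 = a)).card : ℝ) ≤
          4 * X ^ 3 * (1 / (p : ℝ) ^ 2) + 6 := by
        intro a _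
        by_cases ha : (p : ℤ) ∣ a
        · have : (G p).filter (fun q => q.1 = a) = ∅ := by
            rw [Finset.eq_empty_iff_forall_notMem]
            intro x hx
            rw [Finset.mem_filter, hG] at hx
            simp only [Finset.mem_filter] at hx
            apply hx.1.2.2.1
            rw [hx.2]
            exact ha
          rw [this, Finset.card_empty]
          push_cast
          positivity
        · refine le_trans ?_ (fibre_card hX hpp h5 a ha)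
          have : ((G p).filter (fun q => q.1 = a)).card ≤
              ((Icc (-⌊X ^ 3⌋) ⌊X ^ 3⌋).filter (fun b : ℤ => (p : ℤ) ^ 2 ∣ a ^ 3 - b ^ 2)).card := by
            apply Finset.card_le_card_of_injOn (fun q : ℤ × ℤ => q.2)
            · intro x hx
              rw [Finset.mem_coe, Finset.mem_filter, hG] at hx
              simp only [Finset.mem_filter, Pool.Agent.U73.LR.box, Finset.mem_product] at hx
              rw [Finset.mem_coe, Finset.mem_filter]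
              refine ⟨hx.1.1.2, ?_⟩
              have := hx.1.2.2.2
              rwa [hx.2] at this
            · intro x hx y hy hxy
              rw [Finset.mem_coe, Finset.mem_filter] at hx hy
              ext
              · rw [hx.2, hy.2]
              · exact hxy
          exact_mod_cast this
      calc ((G p).card : ℝ) ≤ ∑ a ∈ Icc (-⌊X ^ 2⌋) ⌊X ^ 2⌋,
            (((G p).filter (fun q => q.1 = a)).card : ℝ) := by exact_mod_cast e1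
        _ ≤ ∑ a ∈ Icc (-⌊X ^ 2⌋) ⌊X ^ 2⌋, (4 * X ^ 3 * (1 / (p : ℝ) ^ 2) + 6) :=
            Finset.sum_le_sum e2
        _ = ((Icc (-⌊X ^ 2⌋) ⌊X ^ 2⌋).card : ℝ) * (4 * X ^ 3 * (1 / (p : ℝ) ^ 2) + 6) := by
            rw [Finset.sum_const, nsmul_eq_mul]
        _ ≤ _ := by
            have := Pool.Agent.U73.SZ.card_Icc_le (X ^ 2) (one_le_pow₀ hX)
            gcongr
    · have : G p = ∅ := by
        rw [hG, Finset.eq_empty_iff_forall_notMem]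
        intro x hx
        simp only [Finset.mem_filter] at hx
        exact hpp hx.2.1
      rw [this, Finset.card_empty]
      push_cast
      positivity
  have c1 : (((Finset.Icc z ⌊X ^ 2⌋₊).biUnion G).card : ℝ) ≤ 24 * (X ^ 5 / z) + 18 * X ^ 4 := by
    have h3 : ((Finset.Icc z ⌊X ^ 2⌋₊).biUnion G).card ≤ ∑ p ∈ Finset.Icc z ⌊X ^ 2⌋₊, (G p).card :=
      Finset.card_biUnion_le
    calc (((Finset.Icc z ⌊X ^ 2⌋₊).biUnion G).card : ℝ)
        ≤ ∑ p ∈ Finset.Icc z ⌊X ^ 2⌋₊, ((G p).card : ℝ) := by exact_mod_cast h3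
      _ ≤ ∑ p ∈ Finset.Icc z ⌊X ^ 2⌋₊, 3 * X ^ 2 * (4 * X ^ 3 * (1 / (p : ℝ) ^ 2) + 6) :=
          Finset.sum_le_sum hGc
      _ = 3 * X ^ 2 * (4 * X ^ 3 * (∑ p ∈ Finset.Icc z ⌊X ^ 2⌋₊, (1 / (p : ℝ) ^ 2)) +
            (Finset.Icc z ⌊X ^ 2⌋₊).card * 6) := by
          rw [← Finset.mul_sum, Finset.sum_add_distrib, ← Finset.mul_sum, Finset.sum_const, nsmul_eq_mul]
      _ ≤ 3 * X ^ 2 * (4 * X ^ 3 * (2 / z) + X ^ 2 * 6) := by
          have h4 := sum_inv_sq z (by omega) ⌊X ^ 2⌋₊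
          have h5 : ((Finset.Icc z ⌊X ^ 2⌋₊).card : ℝ) ≤ X ^ 2 := by
            refine le_trans ?_ hN
            rw [Nat.card_Icc]
            exact_mod_cast (by omega : ⌊X ^ 2⌋₊ + 1 - z ≤ ⌊X ^ 2⌋₊)
          gcongr
      _ = _ := by ring
  -- large primes
  have c2 : (F₂.card : ℝ) ≤ C₂ * 6 ^ (17 / 2 : ℝ) * X ^ (9 / 2 : ℝ) := by
    have hinj : Function.Injective (fun q : ℤ × ℤ => ((27 * q.1, 54 * q.2) : ℤ × ℤ)) := by
      intro x y h
      simp only [Prod.mk.injEq] at h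
      ext <;> omega
    have h3 := h2 (6 * X) (X ^ 2) (by linarith) (one_le_pow₀ hX)
      (F₂.image (fun q : ℤ × ℤ => ((27 * q.1, 54 * q.2) : ℤ × ℤ))) (by
      intro y hy
      rw [Finset.mem_image] at hy
      obtain ⟨x, hx, rfl⟩ := hy
      rw [hF₂, Finset.mem_filter, hF, Finset.mem_filter, mem_box] at hx
      obtain ⟨⟨⟨h3, h4⟩, h5, -⟩, h6, p, h7, h8⟩ := hx
      have e1 : Dd (27 * x.1) (54 * x.2) = 78732 * (x.1 ^ 3 - x.2 ^ 2) := by
        unfold Dd; ring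
      refine ⟨by simp only; omega, ?_, ?_, ?_, p, h7, ?_⟩
      · simp only
        push_cast
        rw [abs_mul, abs_of_pos (by norm_num : (0 : ℝ) < 27)]
        nlinarith
      · simp only
        push_cast
        rw [abs_mul, abs_of_pos (by norm_num : (0 : ℝ) < 54)]
        have : (6 * X) ^ 3 = 216 * X ^ 3 := by ring
        rw [this]
        nlinarith [pow_pos hX0 3]
      · simp only
        rw [e1]
        intro h
        rcases mul_eq_zero.1 h with h | h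
        · norm_num at h
        · exact h5 (sub_eq_zero.1 h)
      · simp only
        rw [e1]
        exact h8.mul_left _)
    rw [Finset.card_image_of_injective _ hinj] at h3
    refine h3.trans (le_of_eq ?_)
    have e2 : (6 * X) ^ (8 + 1 / 2 : ℝ) = 6 ^ (17 / 2 : ℝ) * X ^ (17 / 2 : ℝ) := by
      rw [Real.mul_rpow (by norm_num) hX0.le]
      norm_num
    have e3 : X ^ (17 / 2 : ℝ) / (X ^ 2) ^ 2 = X ^ (9 / 2 : ℝ) := by
      rw [← pow_mul, ← Real.rpow_natCast, ← Real.rpow_sub hX0]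
      norm_num
    rw [e2, ← mul_assoc, mul_div_assoc, e3]
  have c3 : X ^ 4 ≤ X ^ 5 / z := by
    rw [le_div_iff₀ hz0]
    have : (z : ℝ) ≤ X := by nlinarith
    calc X ^ 4 * z ≤ X ^ 4 * X := by gcongr
      _ = X ^ 5 := by ring
  have c4 : X ^ (9 / 2 : ℝ) ≤ X ^ 5 / z := by
    rw [le_div_iff₀ hz0]
    have h3 : (z : ℝ) ≤ X ^ (1 / 2 : ℝ) := by
      rw [← Real.sqrt_eq_rpow]
      exact Real.le_sqrt_of_sq_le hXz
    calc X ^ (9 / 2 : ℝ) * z ≤ X ^ (9 / 2 : ℝ) * X ^ (1 / 2 : ℝ) := by gcongr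
      _ = X ^ 5 := by
        rw [← Real.rpow_add hX0, ← Real.rpow_natCast]
        norm_num
  have hcnt : cnt X (fun a b => a ^ 3 ≠ b ^ 2 ∧ ∃ p : ℕ, p.Prime ∧ z ≤ p ∧ ¬ (p : ℤ) ∣ a ∧
      (p : ℤ) ^ 2 ∣ a ^ 3 - b ^ 2) = (F.card : ℝ) := by
    rw [cnt_def X (fun a b => a ^ 3 ≠ b ^ 2 ∧ ∃ p : ℕ, p.Prime ∧ z ≤ p ∧ ¬ (p : ℤ) ∣ a ∧
      (p : ℤ) ^ 2 ∣ a ^ 3 - b ^ 2), hF]
  rw [hcnt]
  have h8 : (F.card : ℝ) ≤ (((Finset.Icc z ⌊X ^ 2⌋₊).biUnion G).card : ℝ) + F₂.card := by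
    exact_mod_cast (Finset.card_le_card hsub).trans (Finset.card_union_le _ _)
  have hC6 : 0 ≤ C₂ * 6 ^ (17 / 2 : ℝ) := by positivity
  calc (F.card : ℝ) ≤ 24 * (X ^ 5 / z) + 18 * X ^ 4 + C₂ * 6 ^ (17 / 2 : ℝ) * X ^ (9 / 2 : ℝ) := by
        linarith
    _ ≤ 24 * (X ^ 5 / z) + 18 * (X ^ 5 / z) + C₂ * 6 ^ (17 / 2 : ℝ) * (X ^ 5 / z) := by gcongr
    _ = _ := by ring

end Pool.Agent.U789.LS

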